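import Pool.Agent.E8helper11.GS.Stm

/-! Project GS, piece GAP. -/

set_option autoImplicit false

open Filter Topology
open scoped Classical

namespace Pool.Agent.E8helper88.GS

open Pool.Agent.E8helper11.GS N0ef6d136

theorem mult_card (a W q : ℕ) (hq : 2 ≤ q) :
    (((Finset.Ioc a (a + W)).filter (fun n => q ∣ n)).card : ℝ) ≤ (W : ℝ) * (1 / (q : ℝ)) + 1 := by
  have hq0 : 0 < q := by omega
  have h1 : ((Finset.Ioc a (a + W)).filter (fun n => q ∣ n)).card ≤
      (Finset.Ioc (a / q) ((a + W) / q)).card := by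
    refine Finset.card_le_card_of_injOn (fun n => n / q) ?_ ?_
    · intro n hn
      rw [Finset.mem_coe, Finset.mem_filter, Finset.mem_Ioc] at hn
      obtain ⟨⟨h1, h2⟩, k, rfl⟩ := hn
      rw [Finset.mem_coe, Finset.mem_Ioc]
      refine ⟨?_, Nat.div_le_div_right h2⟩
      show a / q < q * k / q
      rw [Nat.mul_div_cancel_left k hq0, Nat.div_lt_iff_lt_mul hq0, mul_comm]
      exact h1
    · intro n hn n' hn' h
      rw [Finset.mem_coe, Finset.mem_filter] at hn hn'
      obtain ⟨-, k, rfl⟩ := hn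
      obtain ⟨-, k', rfl⟩ := hn'
      have h2 : q * k / q = q * k' / q := h
      rw [Nat.mul_div_cancel_left k hq0, Nat.mul_div_cancel_left k' hq0] at h2
      rw [h2]
  rw [Nat.card_Ioc] at h1
  have h2 : (((Finset.Ioc a (a + W)).filter (fun n => q ∣ n)).card : ℝ) ≤
      (((a + W) / q - a / q : ℕ) : ℝ) := by exact_mod_cast h1
  refine h2.trans ?_
  have hle : a / q ≤ (a + W) / q := Nat.div_le_div_right (by omega)
  rw [Nat.cast_sub hle]
  have h3 : (((a + W) / q : ℕ) : ℝ) ≤ ((a + W : ℕ) : ℝ) / (q : ℝ) := Nat.cast_div_le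
  have hqr : (0 : ℝ) < q := by exact_mod_cast hq0
  have h4 : (a : ℝ) / (q : ℝ) < ((a / q : ℕ) : ℝ) + 1 := by
    rw [div_lt_iff₀ hqr]
    have := Nat.lt_div_mul_add (a := a) hq0
    have h5 : a < (a / q + 1) * q := by
      rw [add_mul, one_mul]; exact this
    exact_mod_cast h5
  push_cast at h3
  rw [add_div] at h3
  rw [mul_one_div]
  linarith

theorem t_GAP : S_GAP := by
  intro hSi hPr hTup u hu h2 hco hsum hT hB hH
  refine ⟨hu, hco, hsum, ?_⟩
  intro ε hε
  obtain ⟨hP0, hPle⟩ := hPr u h2 hsum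
  set P : ℝ := ∏' i : ℕ, (1 - 1 / (u i : ℝ)) with hPdef
  have hP1 : P ≤ 1 := by
    have := hPle 0
    simpa using this
  -- the choice of `s`
  have hη : 0 < ε / 4 * (P / (1 + ε)) := by positivity
  obtain ⟨S, hS⟩ := (summable_iff_vanishing_norm.1 hsum) _ hη
  obtain ⟨s, hs⟩ := S.exists_nat_subset_range
  -- the events
  have e1 := hT (8 / ε)
  have e2 := hB
  have e3 := hH (ε / 4) (by positivity)
  have e4 : ∀ᶠ j : ℕ in atTop, 2 * (1 + ε) * P⁻¹ ≤ (j : ℝ) :=
    tendsto_natCast_atTop_atTop.eventually_ge_atTop _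
  have e5 : ∀ᶠ j : ℕ in atTop, (2 : ℝ) + 2 ^ s < Real.sqrt j :=
    (Real.tendsto_sqrt_atTop.comp tendsto_natCast_atTop_atTop).eventually_gt_atTop _
  obtain ⟨J, hJ⟩ := eventually_atTop.1 (e1.and (e2.and (e3.and (e4.and e5))))
  rw [eventually_atTop]
  refine ⟨4 ^ J, fun x hx k hk => ?_⟩
  have hx0 : x ≠ 0 := by
    have : 0 < 4 ^ J := by positivity
    omega
  set j : ℕ := Nat.log 4 x + 1 with hj
  have hj1 : 4 ^ j ≤ 4 * x := by
    rw [hj, pow_succ, mul_comm]
    exact Nat.mul_le_mul_left 4 (Nat.pow_log_le_self 4 hx0)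
  have hj2 : x < 4 ^ j := Nat.lt_pow_succ_log_self (by norm_num) x
  have hjJ : J ≤ j := by
    have : J ≤ Nat.log 4 x := Nat.le_log_of_pow_le (by norm_num) hx
    omega
  obtain ⟨f1, f2, f3, f4, f5⟩ := hJ j hjJ
  have g1 := f1 x hj1
  have g3 := f3 x hj1 hj2
  have g6 := hTup u h2 x j hj2
  set T : ℝ := (t u x : ℝ) with hTdef
  have hsj : 0 < Real.sqrt j := lt_trans (by positivity) f5
  have hT1 : 8 * Real.sqrt j ≤ ε * T := by
    have : 8 / ε * Real.sqrt j = 8 * Real.sqrt j / ε := by ring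
    rw [this, div_le_iff₀ hε] at g1
    linarith
  have hTpos : 0 < T := by
    by_contra hcon
    push Not at hcon
    nlinarith [mul_nonneg hε.le (neg_nonneg.2 hcon)]
  have hT2 : T ≤ 2 * (j : ℝ) := by
    rw [hTdef]; exact_mod_cast g6
  by_contra hcon
  rw [not_lt] at hcon
  set G : ℝ := (1 + ε) * T * P⁻¹ with hG
  have hG0 : 0 < G := by positivity
  set a : ℕ := A u k with ha
  obtain ⟨W, hW⟩ : ∃ W, ⌈G⌉₊ = W + 1 := Nat.exists_eq_succ_of_ne_zero (Nat.ceil_pos.2 hG0).ne'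
  have hW1 : (W : ℝ) < G := by
    rw [← Nat.lt_ceil]; omega
  have hW2 : G ≤ (W : ℝ) + 1 := by
    have := Nat.le_ceil G
    rw [hW] at this
    exact_mod_cast this
  have hWj : W ≤ j ^ 2 := by
    have h1 : (W : ℝ) ≤ ((j ^ 2 : ℕ) : ℝ) := by
      refine hW1.le.trans ?_
      have hj0 : (0 : ℝ) ≤ j := Nat.cast_nonneg j
      calc G = T * ((1 + ε) * P⁻¹) := by rw [hG]; ring
        _ ≤ (2 * (j : ℝ)) * ((1 + ε) * P⁻¹) := mul_le_mul_of_nonneg_right hT2 (by positivity)
        _ = (j : ℝ) * (2 * (1 + ε) * P⁻¹) := by ring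
        _ ≤ (j : ℝ) * j := mul_le_mul_of_nonneg_left f4 hj0
        _ = ((j ^ 2 : ℕ) : ℝ) := by push_cast; ring
    exact_mod_cast h1
  have hb : a + W < A u (k + 1) := by
    have : ((a + W : ℕ) : ℝ) < (A u (k + 1) : ℝ) := by
      push_cast
      linarith
    exact_mod_cast this
  have hdiv : ∀ n, a < n → n ≤ a + W → ∃ l, u l ∣ n := by
    intro n h3 h4
    by_contra h5
    push Not at h5
    have h6 : n ≤ A u k := Nat.le_nth_of_lt_nth_succ (p := fun a => a ∈ ASet u)
      (lt_of_le_of_lt h4 hb) h5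
    omega
  -- the numbers not divisible by the first terms
  set I : Finset ℕ := Finset.Ioc a (a + W) with hI
  set I' : Finset ℕ := I.filter (fun n => ∀ i < s, ¬ u i ∣ n) with hI'
  have hsieve := hSi u h2 hco s a W
  rw [← hI, ← hI'] at hsieve
  set I1 : Finset ℕ := I'.filter (fun n => ∃ l, s ≤ l ∧ l ^ 2 < j ∧ u l ∣ n) with hI1
  set I2 : Finset ℕ := I'.filter (fun n => ¬ ∃ l, s ≤ l ∧ l ^ 2 < j ∧ u l ∣ n) with hI2
  have hcard : I1.card + I2.card = I'.card :=
    Finset.card_filter_add_card_filter_not _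
  -- the first part
  set F : Finset ℕ := (Finset.range (Nat.sqrt j + 1)).filter (fun l => s ≤ l) with hF
  have hI1F : I1 ⊆ F.biUnion (fun l => I.filter (fun n => u l ∣ n)) := by
    intro n hn
    rw [hI1, Finset.mem_filter, hI', Finset.mem_filter] at hn
    obtain ⟨⟨h3, -⟩, l, h4, h5, h6⟩ := hn
    rw [Finset.mem_biUnion]
    refine ⟨l, ?_, Finset.mem_filter.2 ⟨h3, h6⟩⟩
    rw [hF, Finset.mem_filter, Finset.mem_range]
    refine ⟨Nat.lt_succ_of_le (Nat.le_sqrt'.2 h5.le), h4⟩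
  have hFc : (F.card : ℝ) ≤ Real.sqrt j + 1 := by
    have h3 : F.card ≤ Nat.sqrt j + 1 := by
      rw [hF]
      refine (Finset.card_filter_le _ _).trans ?_
      rw [Finset.card_range]
    have h4 : (F.card : ℝ) ≤ (Nat.sqrt j : ℝ) + 1 := by exact_mod_cast h3
    have h5 : (Nat.sqrt j : ℝ) ≤ Real.sqrt j := Real.nat_sqrt_le_real_sqrt
    linarith
  have hFs : ∑ l ∈ F, 1 / (u l : ℝ) ≤ ε / 4 * (P / (1 + ε)) := by
    have h3 := hS F (by
      rw [Finset.disjoint_left]
      intro l hl hlS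
      have h4 := hs hlS
      rw [Finset.mem_range] at h4
      rw [hF, Finset.mem_filter] at hl
      omega)
    exact (le_abs_self _).trans h3.le
  have hI1c : (I1.card : ℝ) ≤ ε / 4 * T + Real.sqrt j + 1 := by
    have h3 : (I1.card : ℝ) ≤ ∑ l ∈ F, ((W : ℝ) * (1 / (u l : ℝ)) + 1) := by
      calc (I1.card : ℝ) ≤ ((F.biUnion (fun l => I.filter (fun n => u l ∣ n))).card : ℝ) := by
            exact_mod_cast Finset.card_le_card hI1F
        _ ≤ ((∑ l ∈ F, (I.filter (fun n => u l ∣ n)).card : ℕ) : ℝ) := by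
            exact_mod_cast Finset.card_biUnion_le
        _ = ∑ l ∈ F, ((I.filter (fun n => u l ∣ n)).card : ℝ) := by push_cast; rfl
        _ ≤ _ := Finset.sum_le_sum fun l _ => mult_card a W (u l) (h2 l)
    rw [Finset.sum_add_distrib, ← Finset.mul_sum, Finset.sum_const, nsmul_eq_mul, mul_one] at h3
    have h4 : (W : ℝ) * ∑ l ∈ F, 1 / (u l : ℝ) ≤ ε / 4 * T := by
      calc (W : ℝ) * ∑ l ∈ F, 1 / (u l : ℝ) ≤ G * (ε / 4 * (P / (1 + ε))) :=
            mul_le_mul hW1.le hFs (Finset.sum_nonneg fun l _ => by positivity) hG0.le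
        _ = ε / 4 * T := by
            rw [hG]
            have : (1 + ε) ≠ 0 := by positivity
            field_simp
    linarith
  -- the second part
  have hI2c : (I2.card : ℝ) ≤ (1 + ε / 4) * T := by
    have hex : ∀ n : ℕ, ∃ l, n ∈ I2 → u l ∣ n := by
      intro n
      by_cases hn : n ∈ I2
      · have hn' := hn
        rw [hI2, Finset.mem_filter, hI', Finset.mem_filter, hI, Finset.mem_Ioc] at hn'
        obtain ⟨l, hl⟩ := hdiv n hn'.1.1.1 hn'.1.1.2
        exact ⟨l, fun _ => hl⟩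
      · exact ⟨0, fun h => absurd h hn⟩
    choose L hL using hex
    have hprop : ∀ n ∈ I2, a < n ∧ n ≤ a + W ∧ j ≤ L n ^ 2 := by
      intro n hn
      have hd := hL n hn
      rw [hI2, Finset.mem_filter, hI', Finset.mem_filter, hI, Finset.mem_Ioc] at hn
      refine ⟨hn.1.1.1, hn.1.1.2, ?_⟩
      by_contra h3
      apply hn.2
      refine ⟨L n, ?_, not_le.1 h3, hd⟩
      by_contra h4
      exact hn.1.2 (L n) (not_le.1 h4) hd
    have hinj : Set.InjOn L (I2 : Set ℕ) := by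
      intro n hn n' hn' h
      rw [Finset.mem_coe] at hn hn'
      obtain ⟨p1, p2, p3⟩ := hprop n hn
      obtain ⟨q1, q2, q3⟩ := hprop n' hn'
      have hd := hL n hn
      have hd' := hL n' hn'
      rw [← h] at hd'
      have hlt := f2 (L n) p3
      rcases le_total n n' with h3 | h3
      · have h4 : u (L n) ∣ n' - n := Nat.dvd_sub hd' hd
        rcases Nat.eq_zero_or_pos (n' - n) with h5 | h5
        · omega
        · have := Nat.le_of_dvd h5 h4
          omega
      · have h4 : u (L n) ∣ n - n' := Nat.dvd_sub hd hd'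
        rcases Nat.eq_zero_or_pos (n - n') with h5 | h5
        · omega
        · have := Nat.le_of_dvd h5 h4
          omega
    have h5 := g3 a (lt_trans hk hj2) (I2.image L) (by
      intro i hi
      rw [Finset.mem_image] at hi
      obtain ⟨n, hn, rfl⟩ := hi
      obtain ⟨p1, p2, p3⟩ := hprop n hn
      exact ⟨p3, n, p1, by omega, hL n hn⟩)
    rw [Finset.card_image_of_injOn hinj] at h5
    exact h5
  -- the end
  have hWP : (1 + ε) * T - 1 ≤ (W : ℝ) * ∏ i ∈ Finset.range s, (1 - 1 / (u i : ℝ)) := by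
    have h3 : (W : ℝ) * P ≤ (W : ℝ) * ∏ i ∈ Finset.range s, (1 - 1 / (u i : ℝ)) :=
      mul_le_mul_of_nonneg_left (hPle s) (Nat.cast_nonneg W)
    have h4 : G * P = (1 + ε) * T := by
      rw [hG]
      field_simp
    have h5 : G * P ≤ ((W : ℝ) + 1) * P := mul_le_mul_of_nonneg_right hW2 hP0.le
    nlinarith
  have hc : (I1.card : ℝ) + (I2.card : ℝ) = (I'.card : ℝ) := by exact_mod_cast hcard
  nlinarith [hsieve, hWP, hI1c, hI2c, hc, hT1, f5, hsj]

end Pool.Agent.E8helper88.GS
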